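import Pool.Agent.H209Z.BT.Defs

set_option autoImplicit false
set_option linter.unusedSectionVars false

open MeasureTheory Filter Topology
open scoped ENNReal ComplexConjugate InnerProductSpace

namespace Pool.Agent.H209Z.BT

noncomputable section

variable {E : Type} [NormedAddCommGroup E] [InnerProductSpace ℂ E] [FiniteDimensional ℂ E]
  [CompleteSpace E]

/-- `A` acts as multiplication by `F` -/
def IsMul (A : L2 E →L[ℂ] L2 E) (F : UnitAddCircle → Mat E) : Prop :=
  ∀ f : L2 E, (A f : UnitAddCircle → E) =ᵐ[mu] fun t => F t (f t)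

theorem isMul_mulOp (Φ : Linf E) : IsMul (mulOp Φ) Φ := fun f => by
  have := (ContinuousLinearMap.id ℂ (Mat E)).coeFn_holder (r := 2) Φ f
  exact this

theorem exists_isMul_of_memLp {F : UnitAddCircle → Mat E} (hF : MemLp F ∞ mu) :
    ∃ A, IsMul A F := by
  refine ⟨mulOp (hF.toLp F), fun f => ?_⟩
  filter_upwards [isMul_mulOp (hF.toLp F) f, hF.coeFn_toLp] with t h1 h2
  rw [h1, h2]

theorem memLp_of_continuous {F : UnitAddCircle → Mat E} (hF : Continuous F) : MemLp F ∞ mu := by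
  obtain ⟨C, hC⟩ := (isCompact_range hF).isBounded.exists_norm_le
  exact memLp_top_of_bound hF.aestronglyMeasurable C
    (ae_of_all _ fun t => hC _ ⟨t, rfl⟩)

theorem exists_isMul {F : UnitAddCircle → Mat E} (hF : Continuous F) : ∃ A, IsMul A F :=
  exists_isMul_of_memLp (memLp_of_continuous hF)

theorem IsMul.comp {A B : L2 E →L[ℂ] L2 E} {F G : UnitAddCircle → Mat E} (hA : IsMul A F)
    (hB : IsMul B G) : IsMul (A ∘L B) fun t => F t * G t := fun f => by
  filter_upwards [hA (B f), hB f] with t h1 h2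
  rw [ContinuousLinearMap.comp_apply, h1, h2]
  rfl

theorem IsMul.sub {A B : L2 E →L[ℂ] L2 E} {F G : UnitAddCircle → Mat E} (hA : IsMul A F)
    (hB : IsMul B G) : IsMul (A - B) fun t => F t - G t := fun f => by
  filter_upwards [hA f, hB f, Lp.coeFn_sub (A f) (B f)] with t h1 h2 h3
  rw [ContinuousLinearMap.sub_apply, h3, Pi.sub_apply, h1, h2]
  rfl

theorem IsMul.add {A B : L2 E →L[ℂ] L2 E} {F G : UnitAddCircle → Mat E} (hA : IsMul A F)
    (hB : IsMul B G) : IsMul (A + B) fun t => F t + G t := fun f => by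
  filter_upwards [hA f, hB f, Lp.coeFn_add (A f) (B f)] with t h1 h2 h3
  rw [ContinuousLinearMap.add_apply, h3, Pi.add_apply, h1, h2]
  rfl

theorem IsMul.smul {A : L2 E →L[ℂ] L2 E} {F : UnitAddCircle → Mat E} (hA : IsMul A F)
    (c : ℂ) : IsMul (c • A) fun t => c • F t := fun f => by
  filter_upwards [hA f, Lp.coeFn_smul c (A f)] with t h1 h3
  rw [ContinuousLinearMap.smul_apply, h3, Pi.smul_apply, h1]
  rfl

theorem isMul_one : IsMul (1 : L2 E →L[ℂ] L2 E) fun _ => 1 := fun _ => ae_of_all _ fun _ => rfl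

theorem IsMul.ext {A B : L2 E →L[ℂ] L2 E} {F G : UnitAddCircle → Mat E} (hA : IsMul A F)
    (hB : IsMul B G) (h : ∀ t, F t = G t) : A = B := by
  ext1 f
  apply Lp.ext
  filter_upwards [hA f, hB f] with t h1 h2
  rw [h1, h2, h]

theorem IsMul.inner {A B : L2 E →L[ℂ] L2 E} {F G : UnitAddCircle → Mat E} (hA : IsMul A F)
    (hB : IsMul B G) (h : ∀ᵐ t ∂mu, G t = star (F t)) (f g : L2 E) :
    ⟪A f, g⟫_ℂ = ⟪f, B g⟫_ℂ := by
  rw [L2.inner_def, L2.inner_def]
  refine integral_congr_ae ?_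
  filter_upwards [hA f, hB g, h] with t h1 h2 h3
  rw [h1, h2, h3, ContinuousLinearMap.star_eq_adjoint, ContinuousLinearMap.adjoint_inner_right]

theorem IsMul.inner_map {A : L2 E →L[ℂ] L2 E} {F : UnitAddCircle → Mat E} (hA : IsMul A F)
    (h : ∀ t v w, ⟪F t v, F t w⟫_ℂ = ⟪v, w⟫_ℂ) (f g : L2 E) :
    ⟪A f, A g⟫_ℂ = ⟪f, g⟫_ℂ := by
  rw [L2.inner_def, L2.inner_def]
  refine integral_congr_ae ?_
  filter_upwards [hA f, hA g] with t h1 h2
  rw [h1, h2, h]

theorem norm_eq_of_inner {G : Type*} [NormedAddCommGroup G] [InnerProductSpace ℂ G] {x y : G}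
    (h : ⟪x, x⟫_ℂ = ⟪y, y⟫_ℂ) : ‖x‖ = ‖y‖ := by
  rw [@norm_eq_sqrt_re_inner ℂ, @norm_eq_sqrt_re_inner ℂ _ _ _ _ y, h]

/-- multiplication by `z ^ k` -/
def shift (E : Type) [NormedAddCommGroup E] [InnerProductSpace ℂ E] [FiniteDimensional ℂ E]
    [CompleteSpace E] (k : ℤ) : L2 E →L[ℂ] L2 E :=
  (exists_isMul (E := E) (F := fun t => fourier k t • (1 : Mat E)) (by fun_prop)).choose

theorem isMul_shift (k : ℤ) : IsMul (shift E k) fun t => fourier k t • (1 : Mat E) :=
  (exists_isMul (E := E) (F := fun t => fourier k t • (1 : Mat E)) (by fun_prop)).choose_spec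

theorem IsMul.comm_shift {A : L2 E →L[ℂ] L2 E} {F : UnitAddCircle → Mat E} (hA : IsMul A F)
    (k : ℤ) (f : L2 E) : A (shift E k f) = shift E k (A f) := by
  have := (hA.comp (isMul_shift k)).ext ((isMul_shift k).comp hA) (fun t => by simp)
  exact congrArg (fun T : L2 E →L[ℂ] L2 E => T f) this

theorem shift_shift (j k : ℤ) (f : L2 E) : shift E j (shift E k f) = shift E (j + k) f := by
  have := ((isMul_shift (E := E) j).comp (isMul_shift k)).ext (isMul_shift (j + k))
    (fun t => by rw [fourier_add]; simp [smul_smul, mul_comm])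
  exact congrArg (fun T : L2 E →L[ℂ] L2 E => T f) this

theorem shift_zero (f : L2 E) : shift E 0 f = f := by
  have := (isMul_shift (E := E) 0).ext isMul_one (fun t => by simp)
  exact congrArg (fun T : L2 E →L[ℂ] L2 E => T f) this

theorem inner_shift (k : ℤ) (f g : L2 E) : ⟪shift E k f, shift E k g⟫_ℂ = ⟪f, g⟫_ℂ := by
  refine (isMul_shift k).inner_map (fun t v w => ?_) f g
  simp only [ContinuousLinearMap.smul_apply, ContinuousLinearMap.one_apply, inner_smul_left,
    inner_smul_right]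
  rw [← mul_assoc, ← fourier_neg, ← fourier_add]
  simp

theorem norm_shift (k : ℤ) (f : L2 E) : ‖shift E k f‖ = ‖f‖ :=
  norm_eq_of_inner (inner_shift k f f)

/-- the Fourier coefficient as a continuous linear map -/
def coef (E : Type) [NormedAddCommGroup E] [InnerProductSpace ℂ E] [CompleteSpace E] (k : ℤ) : L2 E →L[ℂ] E :=
  (ContinuousLinearMap.lsmul ℂ ℂ : ℂ →L[ℂ] E →L[ℂ] E).lpPairing mu 2 2 (fourierLp 2 (-k))

theorem coef_apply (k : ℤ) (f : L2 E) : coef E k f = fourierCoeff (⇑f) k :=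
  lpPairing_fourier k f

theorem mem_H2 {f : L2 E} : f ∈ H2 E ↔ ∀ k : ℤ, k < 0 → coef E k f = 0 := by
  simp only [coef_apply]
  rfl

theorem coef_shift (j k : ℤ) (f : L2 E) : coef E j (shift E k f) = coef E (j - k) f := by
  rw [coef_apply, coef_apply, fourierCoeff, fourierCoeff]
  refine integral_congr_ae ?_
  filter_upwards [isMul_shift k f] with t h1
  rw [h1]
  simp only [ContinuousLinearMap.smul_apply, ContinuousLinearMap.one_apply, smul_smul]
  rw [← fourier_add]
  congr 3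
  ring

theorem IsMul.coef_const {A : L2 E →L[ℂ] L2 E} {M : Mat E} (hA : IsMul A fun _ => M)
    (k : ℤ) (f : L2 E) : coef E k (A f) = M (coef E k f) := by
  rw [coef_apply, coef_apply, fourierCoeff, fourierCoeff,
    ← M.integral_comp_comm ((integrable_L2 f).fourier_smul _)]
  refine integral_congr_ae ?_
  filter_upwards [hA f] with t h1
  rw [h1, map_smul]

/-- the constant function -/
def cst (E : Type) [NormedAddCommGroup E] [InnerProductSpace ℂ E] : E →L[ℂ] L2 E := Lp.constL 2 mu ℂ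

theorem coeFn_cst (v : E) : (cst E v : UnitAddCircle → E) =ᵐ[mu] fun _ => v :=
  Lp.coeFn_const 2 mu v

theorem inner_cst (v : E) (f : L2 E) : ⟪cst E v, f⟫_ℂ = ⟪v, coef E 0 f⟫_ℂ := by
  rw [L2.inner_def, coef_apply, fourierCoeff,
    ← integral_inner ((integrable_L2 f).fourier_smul _)]
  refine integral_congr_ae ?_
  filter_upwards [coeFn_cst v] with t h1
  rw [h1]
  simp

theorem coef_cst (k : ℤ) (v : E) : coef E k (cst E v) = if k = 0 then v else 0 := by
  rw [coef_apply, fourierCoeff_congr_ae (coeFn_cst v), fourierCoeff, integral_smul_const]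
  have h := congrFun (fourierCoeff_fourier (T := 1) 0) k
  simp only [fourierCoeff, fourier_zero, smul_eq_mul, mul_one] at h
  rw [h]
  by_cases hk : k = 0
  · simp [hk]
  · simp [hk]

theorem norm_cst (v : E) : ‖cst E v‖ = ‖v‖ := by
  have h := inner_cst v (cst E v)
  rw [coef_cst, if_pos rfl] at h
  rw [@norm_eq_sqrt_re_inner ℂ, @norm_eq_sqrt_re_inner ℂ _ _ _ _ v, h]

theorem cst_mem (v : E) : cst E v ∈ H2 E :=
  mem_H2.2 fun k hk => by rw [coef_cst, if_neg hk.ne]

theorem inner_shift_cst (k : ℤ) (v : E) (f : L2 E) :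
    ⟪shift E k (cst E v), f⟫_ℂ = ⟪v, coef E k f⟫_ℂ := by
  rw [← inner_shift (-k), shift_shift, neg_add_cancel, shift_zero, inner_cst, coef_shift]
  simp

theorem eq_zero_of_coef {f : L2 E} (h : ∀ k, coef E k f = 0) : f = 0 := by
  let b := stdOrthonormalBasis ℂ E
  have h1 : ∀ i, ∀ᵐ t ∂mu, ⟪b i, f t⟫_ℂ = 0 := by
    intro i
    let g : Lp ℂ 2 mu := (innerSL ℂ (b i) : E →L[ℂ] ℂ).compLp f
    have hg : (g : UnitAddCircle → ℂ) =ᵐ[mu] fun t => ⟪b i, f t⟫_ℂ :=
      (innerSL ℂ (b i) : E →L[ℂ] ℂ).coeFn_compLp' f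
    have hg0 : g = 0 := by
      apply (fourierBasis (T := 1)).repr.injective
      ext k
      rw [fourierBasis_repr, fourierCoeff_congr_ae hg, map_zero]
      have h2 := congrArg (innerSL ℂ (b i) : E →L[ℂ] ℂ) (h k)
      rw [coef_apply, fourierCoeff, ← ContinuousLinearMap.integral_comp_comm _
        ((integrable_L2 f).fourier_smul _), map_zero] at h2
      simpa [fourierCoeff] using h2
    rw [hg0] at hg
    filter_upwards [hg, Lp.coeFn_zero ℂ 2 mu] with t h3 h4
    rw [← h3, h4]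
    rfl
  apply Lp.ext
  filter_upwards [ae_all_iff.2 h1, Lp.coeFn_zero E 2 mu] with t h3 h4
  rw [h4]
  apply b.repr.injective
  ext i
  rw [b.repr_apply_apply, h3 i]
  simp

theorem shift_cst_mem {k : ℤ} (hk : 0 ≤ k) (v : E) : shift E k (cst E v) ∈ H2 E :=
  mem_H2.2 fun j hj => by rw [coef_shift, coef_cst, if_neg (by omega)]

theorem shift_mem {k : ℤ} (hk : 0 ≤ k) {f : L2 E} (hf : f ∈ H2 E) : shift E k f ∈ H2 E :=
  mem_H2.2 fun j hj => by rw [coef_shift, mem_H2.1 hf _ (by omega)]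

theorem mem_orth {g : L2 E} : g ∈ (H2 E)ᗮ ↔ ∀ k : ℤ, 0 ≤ k → coef E k g = 0 := by
  have key : ∀ g ∈ (H2 E)ᗮ, ∀ k : ℤ, 0 ≤ k → coef E k g = 0 := by
    intro g hg k hk
    have h := (Submodule.mem_orthogonal _ _).1 hg _ (shift_cst_mem hk (coef E k g))
    rw [inner_shift_cst] at h
    exact inner_self_eq_zero.1 h
  refine ⟨key g, fun h => ?_⟩
  have h1 := (H2 E).sub_starProjection_mem_orthogonal g
  have h2 : (H2 E).starProjection g = 0 := by
    apply eq_zero_of_coef
    intro k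
    rcases lt_or_ge k 0 with hk | hk
    · exact mem_H2.1 ((H2 E).starProjection_apply_mem g) k hk
    · have h3 := key _ h1 k hk
      rw [map_sub, h k hk, zero_sub, neg_eq_zero] at h3
      exact h3
  rwa [h2, sub_zero] at h1

/-- the projection onto the orthogonal complement of the Hardy space -/
abbrev Qp (E : Type) [NormedAddCommGroup E] [InnerProductSpace ℂ E] [CompleteSpace E] : L2 E →L[ℂ] L2 E := (H2 E)ᗮ.starProjection

theorem Qp_mem (g : L2 E) : Qp E g ∈ (H2 E)ᗮ := Submodule.starProjection_apply_mem _ g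

theorem Qp_of_mem {f : L2 E} (hf : f ∈ H2 E) : Qp E f = 0 := by
  rw [Submodule.starProjection_apply_eq_zero_iff]
  exact Submodule.le_orthogonal_orthogonal _ hf

theorem mem_of_Qp {f : L2 E} (hf : Qp E f = 0) : f ∈ H2 E := by
  rw [Submodule.starProjection_apply_eq_zero_iff, Submodule.orthogonal_orthogonal] at hf
  exact hf

theorem Qp_of_mem_orth {g : L2 E} (hg : g ∈ (H2 E)ᗮ) : Qp E g = g :=
  Submodule.starProjection_eq_self_iff.2 hg

theorem sub_Qp_mem (g : L2 E) : g - Qp E g ∈ H2 E :=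
  mem_of_Qp (by rw [map_sub, Qp_of_mem_orth (Qp_mem g), sub_self])

theorem coef_Qp {k : ℤ} (hk : k < 0) (g : L2 E) : coef E k (Qp E g) = coef E k g := by
  have h := mem_H2.1 (sub_Qp_mem g) k hk
  rw [map_sub, sub_eq_zero] at h
  exact h.symm

theorem Qp_apply_Qp {A : L2 E →L[ℂ] L2 E} (hA : ∀ f ∈ H2 E, A f ∈ H2 E) (g : L2 E) :
    Qp E (A (Qp E g)) = Qp E (A g) := by
  have h := Qp_of_mem (hA _ (sub_Qp_mem g))
  rw [map_sub, map_sub, sub_eq_zero] at h
  exact h.symm

theorem norm_Qp_le (g : L2 E) : ‖Qp E g‖ ≤ ‖g‖ := Submodule.norm_starProjection_apply_le _ g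

theorem norm_sq_split (g : L2 E) : ‖g‖ ^ 2 = ‖g - Qp E g‖ ^ 2 + ‖Qp E g‖ ^ 2 := by
  have h : ⟪g - Qp E g, Qp E g⟫_ℂ = 0 :=
    (Submodule.mem_orthogonal _ _).1 (Qp_mem g) _ (sub_Qp_mem g)
  have h2 := norm_add_sq_eq_norm_sq_add_norm_sq_of_inner_eq_zero _ _ h
  rw [sub_add_cancel] at h2
  nlinarith [h2]

theorem Qp_shift {g : L2 E} (hg : g ∈ (H2 E)ᗮ) :
    shift E 1 g - Qp E (shift E 1 g) = cst E (coef E (-1) g) := by
  have h1 : shift E 1 g - cst E (coef E (-1) g) ∈ (H2 E)ᗮ := by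
    refine mem_orth.2 fun k hk => ?_
    rw [map_sub, coef_shift, coef_cst]
    split_ifs with h
    · subst h; simp
    · rw [mem_orth.1 hg _ (by omega), sub_zero]
  have h2 := Qp_of_mem_orth h1
  rw [map_sub, Qp_of_mem (cst_mem _), sub_zero] at h2
  rw [h2]
  abel

theorem norm_Qp_shift {g : L2 E} (hg : g ∈ (H2 E)ᗮ) :
    ‖g‖ ^ 2 = ‖coef E (-1) g‖ ^ 2 + ‖Qp E (shift E 1 g)‖ ^ 2 := by
  rw [← norm_shift 1 g, norm_sq_split, Qp_shift hg, norm_cst]

theorem tendsto_Qp_shift (g : L2 E) :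
    Tendsto (fun N : ℕ => ‖Qp E (shift E N g)‖) atTop (𝓝 0) := by
  let S : Submodule ℂ (L2 E) :=
    Submodule.span ℂ (Set.range fun p : ℤ × E => shift E p.1 (cst E p.2))
  have hS : S.topologicalClosure = ⊤ := by
    rw [Submodule.topologicalClosure_eq_top_iff, eq_bot_iff]
    intro f hf
    rw [Submodule.mem_bot]
    apply eq_zero_of_coef
    intro k
    have h := (Submodule.mem_orthogonal _ _).1 hf _
      (Submodule.subset_span ⟨(k, coef E k f), rfl⟩)
    rw [inner_shift_cst] at h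
    exact inner_self_eq_zero.1 h
  have h1 : ∀ f ∈ S, ∀ᶠ N : ℕ in atTop, Qp E (shift E N f) = 0 := by
    intro f hf
    induction hf using Submodule.span_induction with
    | mem x hx =>
      obtain ⟨⟨k, v⟩, rfl⟩ := hx
      filter_upwards [eventually_ge_atTop k.natAbs] with N hN
      rw [shift_shift]
      exact Qp_of_mem (shift_cst_mem (by omega) v)
    | zero => exact Eventually.of_forall fun N => by simp
    | add x y _ _ hx hy =>
      filter_upwards [hx, hy] with N h1 h2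
      rw [map_add, map_add, h1, h2, add_zero]
    | smul c x _ hx =>
      filter_upwards [hx] with N h1
      rw [map_smul, map_smul, h1, smul_zero]
  rw [Metric.tendsto_nhds]
  intro ε hε
  have hg : g ∈ closure (S : Set (L2 E)) := by
    rw [← Submodule.topologicalClosure_coe, hS]
    trivial
  obtain ⟨f, hf, hfg⟩ := Metric.mem_closure_iff.1 hg ε hε
  filter_upwards [h1 f hf] with N hN
  rw [dist_zero_right, norm_norm]
  have h2 : Qp E (shift E N g) = Qp E (shift E N (g - f)) := by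
    rw [map_sub, map_sub, hN, sub_zero]
  rw [h2]
  refine (norm_Qp_le _).trans_lt ?_
  rw [norm_shift, ← dist_eq_norm]
  exact hfg

theorem mem_of_rec {a : ℂ} (ha : ‖a‖ < 1) {g : L2 E} (h : g - a • shift E 1 g ∈ H2 E) :
    g ∈ H2 E := by
  have h1 := Qp_of_mem h
  rw [map_sub, map_smul, sub_eq_zero, ← Qp_apply_Qp (fun f hf => shift_mem zero_le_one hf)] at h1
  have h2 : ‖Qp E g‖ ≤ ‖a‖ * ‖Qp E g‖ := by
    conv_lhs => rw [h1, norm_smul]
    gcongr
    exact (norm_Qp_le _).trans (norm_shift _ _).le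
  apply mem_of_Qp
  have h3 := norm_nonneg (Qp E g)
  have h4 : ‖Qp E g‖ = 0 := by nlinarith
  exact norm_eq_zero.1 h4

theorem IsMul.fourierCoeff_apply {A : L2 E →L[ℂ] L2 E} {F : UnitAddCircle → Mat E}
    (hA : IsMul A F) (hF : Integrable F mu) (k : ℤ) (v : E) :
    fourierCoeff F k v = coef E k (A (cst E v)) := by
  rw [coef_apply, fourierCoeff, fourierCoeff,
    ContinuousLinearMap.integral_apply (hF.fourier_smul _)]
  refine integral_congr_ae ?_
  filter_upwards [hA (cst E v), coeFn_cst v] with t h1 h2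
  rw [h1, h2]
  rfl

theorem IsMul.isHinf {A : L2 E →L[ℂ] L2 E} {F : UnitAddCircle → Mat E}
    (hA : IsMul A F) (hF : MemLp F ∞ mu) (h : ∀ f ∈ H2 E, A f ∈ H2 E) : IsHinf F := by
  refine ⟨hF, fun k hk => ?_⟩
  ext1 v
  rw [hA.fourierCoeff_apply (hF.integrable le_top), mem_H2.1 (h _ (cst_mem v)) k hk]
  rfl

end

end Pool.Agent.H209Z.BT
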