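import Mathlib

set_option autoImplicit false

open MeasureTheory
open scoped ENNReal ComplexConjugate

namespace Pool.Agent.H209Z.BTS

noncomputable section

section Operators

variable {H : Type} [NormedAddCommGroup H] [InnerProductSpace ℂ H] [CompleteSpace H]

/-- the self-commutator `T* T - T T*` -/
def selfCommutator (T : H →L[ℂ] H) : H →L[ℂ] H :=
  ContinuousLinearMap.adjoint T ∘L T - T ∘L ContinuousLinearMap.adjoint T

/-- `T` is hyponormal and its self-commutator has finite rank equal to `r` -/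
def HyponormalOfRank (T : H →L[ℂ] H) (r : ℕ) : Prop :=
  (selfCommutator T).IsPositive ∧ FiniteDimensional ℂ (selfCommutator T).range ∧
    Module.finrank ℂ (selfCommutator T).range = r

end Operators

section Symbols

variable {E : Type} [NormedAddCommGroup E] [InnerProductSpace ℂ E]

/-- `S` is the Hardy space of `E`-valued `L²` functions on the circle `ℝ / ℤ`, with normalised
Lebesgue measure, whose negative Fourier coefficients vanish, and `T` is the block Toeplitz
operator `f ↦ P (Φ f)` on it, `P` the orthogonal projection onto `S` -/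
structure IsBlockToeplitz (Φ : UnitAddCircle → E →L[ℂ] E)
    (S : Submodule ℂ (Lp E 2 (AddCircle.haarAddCircle (T := 1)))) [CompleteSpace S]
    (T : S →L[ℂ] S) : Prop where
  mem_iff : ∀ f : Lp E 2 (AddCircle.haarAddCircle (T := 1)),
    f ∈ S ↔ ∀ k : ℤ, k < 0 → fourierCoeff (⇑f) k = 0
  apply_eq : ∀ (f : S) (g : Lp E 2 (AddCircle.haarAddCircle (T := 1))),
    (∀ᵐ t ∂AddCircle.haarAddCircle, g t = Φ t (f.1 t)) → T f = S.orthogonalProjectionOnto g

/-- `F` is in `H^∞`: essentially bounded, with vanishing negative Fourier coefficients -/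
def IsHinf (F : UnitAddCircle → E →L[ℂ] E) : Prop :=
  MemLp F ∞ AddCircle.haarAddCircle ∧ ∀ k : ℤ, k < 0 → fourierCoeff F k = 0

/-- the Blaschke factor `(z - α) / (1 - conj α * z)` -/
def blaschke (α z : ℂ) : ℂ := (z - α) / (1 - conj α * z)

/-- `ν` times the ordered product of the factors `b_α(z) P + (1 - P)` over a list of pairs
`(α, P)` -/
def potapov (ν : E →L[ℂ] E) (l : List (ℂ × (E →L[ℂ] E))) (z : ℂ) : E →L[ℂ] E :=
  ν * (l.map fun p => blaschke p.1 z • p.2 + (1 - p.2)).prod

/-- the number of zeros of `det B` in the open unit disc, counted with multiplicity -/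
def degDet (B : ℂ → E →L[ℂ] E) : ℕ :=
  ∑ᶠ z ∈ Metric.ball (0 : ℂ) 1, analyticOrderNatAt (fun w => (B w).det) z

variable [CompleteSpace E]

/-- `K` lies in the set `E(Φ)`: `K ∈ H^∞`, `‖K‖_∞ ≤ 1` and `Φ - K Φ* ∈ H^∞` -/
def MemE (Φ K : UnitAddCircle → E →L[ℂ] E) : Prop :=
  IsHinf K ∧ eLpNorm K ∞ AddCircle.haarAddCircle ≤ 1 ∧ IsHinf fun t => Φ t - K t * star (Φ t)

/-- `B` is a finite Blaschke-Potapov product -/
def IsBlaschkePotapov (B : ℂ → E →L[ℂ] E) : Prop :=
  ∃ (ν : E →L[ℂ] E) (l : List (ℂ × (E →L[ℂ] E))), ν ∈ unitary (E →L[ℂ] E) ∧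
    (∀ p ∈ l, ‖p.1‖ < 1 ∧ IsStarProjection p.2 ∧ p.2 ≠ 0) ∧ B = potapov ν l

end Symbols

end

end Pool.Agent.H209Z.BTS
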