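import Pool.Agent.H209Z.BT.Main
import Pool.Agent.H209Z.BT.Stmt

set_option autoImplicit false
set_option linter.unusedSectionVars false

open MeasureTheory Filter
open scoped ENNReal

namespace Pool.Agent.H209Z.BT

variable {E : Type} [NormedAddCommGroup E] [InnerProductSpace ℂ E] [FiniteDimensional ℂ E]
  [CompleteSpace E]

theorem isBlockToeplitz_toLp {Φ : UnitAddCircle → E →L[ℂ] E} (hΦ : MemLp Φ ∞ mu) :
    BTS.IsBlockToeplitz Φ (H2 E) (toeplitz (hΦ.toLp Φ)) := by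
  refine ⟨fun f => Iff.rfl, fun f g hg => ?_⟩
  have h : mulOp (hΦ.toLp Φ) f = g := by
    apply Lp.ext
    filter_upwards [isMul_mulOp (hΦ.toLp Φ) f, hΦ.coeFn_toLp, hg] with t h1 h2 h3
    rw [h1, h2, h3]
  rw [← h]
  rfl

theorem isHinf_congr {F G : UnitAddCircle → E →L[ℂ] E} (h : F =ᵐ[mu] G) (hF : IsHinf F) :
    IsHinf G :=
  ⟨hF.1.ae_eq h, fun k hk => by rw [← fourierCoeff_congr_ae h]; exact hF.2 k hk⟩

theorem bridge {Φ : UnitAddCircle → E →L[ℂ] E} (hΦ : MemLp Φ ∞ mu)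
    (S : Submodule ℂ (Lp E 2 mu)) [CompleteSpace S] (T : S →L[ℂ] S)
    (hT : BTS.IsBlockToeplitz Φ S T) (r : ℕ) (h : BTS.HyponormalOfRank T r) :
    ∃ B : ℂ → E →L[ℂ] E, BTS.IsBlaschkePotapov B ∧ BTS.MemE Φ (fun t => B (fourier 1 t)) ∧
      BTS.degDet B = r := by
  have hS : S = H2 E := by
    ext f
    exact hT.mem_iff f
  subst hS
  have hT' : T = toeplitz (hΦ.toLp Φ) := by
    ext1 f
    refine hT.apply_eq f (mulOp (hΦ.toLp Φ) f) ?_
    filter_upwards [isMul_mulOp (hΦ.toLp Φ) f, hΦ.coeFn_toLp] with t h1 h2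
    rw [h1, h2]
  subst hT'
  obtain ⟨B, h1, h2, h3⟩ := main (hΦ.toLp Φ) h.1 h.2.1
  refine ⟨B, h1, ⟨h2.1, h2.2.1, isHinf_congr ?_ h2.2.2⟩, h3.symm.trans h.2.2⟩
  filter_upwards [hΦ.coeFn_toLp] with t ht
  rw [ht]

end Pool.Agent.H209Z.BT
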