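import Pool.Agent.H209Z.BT.Factor

set_option autoImplicit false
set_option linter.unusedSectionVars false

open MeasureTheory Filter Topology
open scoped ENNReal ComplexConjugate InnerProductSpace

namespace Pool.Agent.H209Z.BT

noncomputable section

variable {E : Type} [NormedAddCommGroup E] [InnerProductSpace ℂ E] [FiniteDimensional ℂ E]
  [CompleteSpace E]

theorem lurking {X W : Type*} [AddCommGroup X] [Module ℂ X] [NormedAddCommGroup W]
    [InnerProductSpace ℂ W] [FiniteDimensional ℂ W] (α β : X →ₗ[ℂ] W)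
    (h : ∀ x, ‖α x‖ = ‖β x‖) : ∃ U : W ≃ₗᵢ[ℂ] W, ∀ x, U (α x) = β x := by
  have hk : LinearMap.ker α ≤ LinearMap.ker β := by
    intro x hx
    rw [LinearMap.mem_ker] at hx ⊢
    rw [← norm_eq_zero, ← h, hx, norm_zero]
  let L0 : LinearMap.range α →ₗ[ℂ] W :=
    (LinearMap.ker α).liftQ β hk ∘ₗ α.quotKerEquivRange.symm.toLinearMap
  have hL0 : ∀ x, L0 ⟨α x, LinearMap.mem_range_self α x⟩ = β x := by
    intro x
    have h1 : α.quotKerEquivRange.symm ⟨α x, LinearMap.mem_range_self α x⟩ =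
        (LinearMap.ker α).mkQ x := LinearMap.quotKerEquivRange_symm_apply_image α x _
    change (LinearMap.ker α).liftQ β hk (α.quotKerEquivRange.symm _) = _
    rw [h1]
    rfl
  let L : LinearMap.range α →ₗᵢ[ℂ] W :=
    { toLinearMap := L0
      norm_map' := by
        rintro ⟨_, x, rfl⟩
        rw [hL0, ← h]
        rfl }
  refine ⟨L.extend.toLinearIsometryEquiv rfl, fun x => ?_⟩
  have h1 := L.extend_apply ⟨α x, LinearMap.mem_range_self α x⟩
  exact h1.trans (hL0 x)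

theorem iterate_shift {X : Type*} {s : X → X} {a : X → L2 E} (ha : ∀ x, a x ∈ (H2 E)ᗮ)
    (has : ∀ x, a (s x) = Qp E (shift E 1 (a x))) (N : ℕ) (x : X) :
    a (s^[N] x) = Qp E (shift E N (a x)) := by
  induction N with
  | zero => simp [shift_zero, Qp_of_mem_orth (ha x)]
  | succ N ih =>
    rw [Function.iterate_succ_apply', has, ih,
      Qp_apply_Qp (fun f hf => shift_mem zero_le_one hf), shift_shift,
      show (1 : ℤ) + N = ((N + 1 : ℕ) : ℤ) by push_cast; ring]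

/-- the lurking isometry gives an eigenfunctional -/
theorem eigen_step {X D : Type*} [NormedAddCommGroup X] [NormedSpace ℂ X] [NormedAddCommGroup D]
    [InnerProductSpace ℂ D] [FiniteDimensional ℂ D] [Nontrivial D] (s : X →L[ℂ] X)
    (a c : X →L[ℂ] L2 E) (d : X →L[ℂ] D) (ha : ∀ x, a x ∈ (H2 E)ᗮ) (hc : ∀ x, c x ∈ (H2 E)ᗮ)
    (has : ∀ x, a (s x) = Qp E (shift E 1 (a x))) (hcs : ∀ x, c (s x) = Qp E (shift E 1 (c x)))
    (hd : ∀ x, ‖a x‖ ^ 2 = ‖c x‖ ^ 2 + ‖d x‖ ^ 2) :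
    ∃ (v : D) (α : ℂ) (w : E), ‖v‖ = 1 ∧ ‖α‖ ^ 2 + ‖w‖ ^ 2 = 1 ∧
      ∀ x, ⟪v, d x⟫_ℂ = conj α * ⟪v, d (s x)⟫_ℂ + ⟪w, coef E (-1) (a x)⟫_ℂ := by
  let Eq2 : (D × E) ≃ₗ[ℂ] WithLp 2 (D × E) := (WithLp.linearEquiv 2 ℂ (D × E)).symm
  let A : X →ₗ[ℂ] WithLp 2 (D × E) := Eq2.toLinearMap ∘ₗ
    LinearMap.prod (d ∘L s).toLinearMap (coef E (-1) ∘L a).toLinearMap
  let B : X →ₗ[ℂ] WithLp 2 (D × E) := Eq2.toLinearMap ∘ₗ
    LinearMap.prod d.toLinearMap (coef E (-1) ∘L c).toLinearMap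
  have hA : ∀ x, A x = WithLp.toLp 2 (d (s x), coef E (-1) (a x)) := fun x => rfl
  have hB : ∀ x, B x = WithLp.toLp 2 (d x, coef E (-1) (c x)) := fun x => rfl
  obtain ⟨U, hU⟩ := lurking A B (fun x => by
    have h1 : ‖A x‖ ^ 2 = ‖B x‖ ^ 2 := by
      rw [WithLp.prod_norm_sq_eq_of_L2, WithLp.prod_norm_sq_eq_of_L2, hA, hB]
      have e1 := hd x
      have e2 := hd (s x)
      have e3 := norm_Qp_shift (ha x)
      have e4 := norm_Qp_shift (hc x)
      rw [← has] at e3
      rw [← hcs] at e4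
      simp only [WithLp.toLp_fst, WithLp.toLp_snd]
      linarith
    exact (sq_eq_sq₀ (norm_nonneg _) (norm_nonneg _)).1 h1)
  let T : D →ₗ[ℂ] D := LinearMap.fst ℂ D E ∘ₗ Eq2.symm.toLinearMap ∘ₗ
    U.symm.toLinearEquiv.toLinearMap ∘ₗ Eq2.toLinearMap ∘ₗ LinearMap.inl ℂ D E
  have hT : ∀ v, T v = (U.symm (WithLp.toLp 2 (v, 0))).fst := fun v => rfl
  obtain ⟨α, hα⟩ := Module.End.exists_eigenvalue T
  obtain ⟨v0, hv0⟩ := hα.exists_hasEigenvector
  have hv1 : v0 ≠ 0 := hv0.2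
  have hv2 : T v0 = α • v0 := hv0.apply_eq_smul
  set v : D := ((‖v0‖ : ℂ)⁻¹) • v0 with hv
  have hvn : ‖v‖ = 1 := by
    rw [hv, norm_smul, norm_inv, Complex.norm_real, norm_norm,
      inv_mul_cancel₀ (norm_ne_zero_iff.2 hv1)]
  have hTv : T v = α • v := by rw [hv, map_smul, hv2, smul_comm]
  set y := U.symm (WithLp.toLp 2 (v, 0)) with hy
  have hy1 : y.fst = α • v := by rw [← hTv, hT]
  refine ⟨v, α, y.snd, hvn, ?_, fun x => ?_⟩
  · have h1 : ‖y‖ ^ 2 = 1 := by
      rw [hy, U.symm.norm_map, WithLp.prod_norm_sq_eq_of_L2]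
      simp [hvn]
    rw [WithLp.prod_norm_sq_eq_of_L2, hy1, norm_smul, hvn, mul_one] at h1
    exact h1
  · have h1 : ⟪y, A x⟫_ℂ = ⟪WithLp.toLp 2 (v, (0 : E)), B x⟫_ℂ := by
      rw [← U.inner_map_map, hU, hy, U.apply_symm_apply]
    rw [WithLp.prod_inner_apply, WithLp.prod_inner_apply, hA, hB] at h1
    have h2 : ⟪y.fst, d (s x)⟫_ℂ + ⟪y.snd, coef E (-1) (a x)⟫_ℂ =
        ⟪v, d x⟫_ℂ + ⟪(0 : E), coef E (-1) (c x)⟫_ℂ := h1
    rw [hy1, inner_smul_left, inner_zero_left, add_zero] at h2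
    exact h2.symm

theorem potapov_append (ν : Mat E) (l : List (ℂ × Mat E)) (p : ℂ × Mat E) (z : ℂ) :
    potapov ν (l ++ [p]) z = potapov ν l z * (blaschke p.1 z • p.2 + (1 - p.2)) := by
  simp only [potapov, List.map_append, List.prod_append, List.map_cons, List.map_nil,
    List.prod_cons, List.prod_nil, mul_one, mul_assoc]

theorem core {X : Type} [NormedAddCommGroup X] [NormedSpace ℂ X] (s : X →L[ℂ] X)
    (hs : ∀ x, ‖s x‖ ≤ ‖x‖) (c : X →L[ℂ] L2 E) (hc : ∀ x, c x ∈ (H2 E)ᗮ)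
    (hcs : ∀ x, c (s x) = Qp E (shift E 1 (c x))) (r : ℕ) :
    ∀ (D : Type) [NormedAddCommGroup D] [InnerProductSpace ℂ D] [FiniteDimensional ℂ D]
      (a : X →L[ℂ] L2 E) (d : X →L[ℂ] D), Module.finrank ℂ D = r → Function.Surjective d →
      (∀ x, a x ∈ (H2 E)ᗮ) → (∀ x, a (s x) = Qp E (shift E 1 (a x))) →
      (∀ x, ‖a x‖ ^ 2 = ‖c x‖ ^ 2 + ‖d x‖ ^ 2) →
      ∃ (ν : Mat E) (l : List (ℂ × Mat E)) (M : L2 E →L[ℂ] L2 E), ν ∈ unitary (Mat E) ∧
        l.length = r ∧
        (∀ p ∈ l, ‖p.1‖ < 1 ∧ ∃ e : E, ‖e‖ = 1 ∧ p.2 = InnerProductSpace.rankOne ℂ e e) ∧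
        IsMul M (fun t => potapov ν l (fourier 1 t)) ∧ (∀ f ∈ H2 E, M f ∈ H2 E) ∧
        ∀ x, c x = Qp E (M (a x)) := by
  induction r with
  | zero =>
    intro D _ _ _ a d hr _ ha has hd
    have hD : Subsingleton D := Module.finrank_zero_iff.1 hr
    have hd' : ∀ x, ‖a x‖ ^ 2 = ‖c x‖ ^ 2 := fun x => by
      rw [hd, Subsingleton.elim (d x) 0]
      simp
    obtain ⟨U, hU⟩ := lurking (coef E (-1) ∘L a).toLinearMap (coef E (-1) ∘L c).toLinearMap
      (fun x => by
        have h1 : ‖coef E (-1) (a x)‖ ^ 2 = ‖coef E (-1) (c x)‖ ^ 2 := by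
          have e1 := hd' x
          have e2 := hd' (s x)
          have e3 := norm_Qp_shift (ha x)
          have e4 := norm_Qp_shift (hc x)
          rw [← has] at e3
          rw [← hcs] at e4
          linarith
        exact (sq_eq_sq₀ (norm_nonneg _) (norm_nonneg _)).1 h1)
    let ν : unitary (Mat E) := Unitary.linearIsometryEquiv.symm U
    have hν : ∀ v, (ν : Mat E) v = U v := fun v => rfl
    obtain ⟨M, hM⟩ := exists_isMul (E := E) (F := fun _ => (ν : Mat E)) continuous_const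
    refine ⟨ν, [], M, ν.2, rfl, by simp, ?_, fun f hf => ?_, fun x => ?_⟩
    · simpa [potapov] using hM
    · exact mem_H2.2 fun k hk => by rw [hM.coef_const, mem_H2.1 hf k hk, map_zero]
    · rw [← sub_eq_zero]
      apply eq_zero_of_coef
      intro k
      rw [map_sub]
      rcases lt_or_ge k 0 with hk | hk
      · rw [coef_Qp hk, hM.coef_const, hν, sub_eq_zero]
        obtain ⟨N, hN⟩ : ∃ N : ℕ, k = -1 - N := ⟨(-1 - k).toNat, by omega⟩
        have h1 : U (coef E (-1) (a (s^[N] x))) = coef E (-1) (c (s^[N] x)) := hU (s^[N] x)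
        rw [iterate_shift ha has, iterate_shift hc hcs, coef_Qp (by norm_num),
          coef_Qp (by norm_num), coef_shift, coef_shift, ← hN] at h1
        exact h1.symm
      · rw [mem_orth.1 (hc x) k hk, mem_orth.1 (Qp_mem _) k hk, sub_zero]
  | succ r ih =>
    intro D _ _ _ a d hr hsurj ha has hd
    have hD : Nontrivial D := Module.nontrivial_of_finrank_eq_succ hr
    obtain ⟨v, α, w, hv, hnorm, hrec⟩ := eigen_step s a c d ha hc has hcs hd
    have hsN : ∀ (N : ℕ) x, ‖s^[N] x‖ ≤ ‖x‖ := by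
      intro N x
      induction N with
      | zero => simp
      | succ N ih => rw [Function.iterate_succ_apply']; exact (hs _).trans ih
    have hw : w ≠ 0 := by
      intro hw
      rw [hw, norm_zero] at hnorm
      have hα : ‖α‖ = 1 := by nlinarith [norm_nonneg α]
      obtain ⟨x, hx⟩ := hsurj v
      have h1 : ∀ N : ℕ, ‖⟪v, d (s^[N] x)⟫_ℂ‖ = 1 := by
        intro N
        induction N with
        | zero => simp [hx, hv]
        | succ N ih =>
          rw [hrec, hw, inner_zero_left, add_zero, norm_mul, Complex.norm_conj, hα, one_mul] at ih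
          rw [Function.iterate_succ_apply']
          exact ih
      have h2 : ∀ N : ℕ, 1 ≤ ‖Qp E (shift E N (a x))‖ := by
        intro N
        rw [← iterate_shift ha has]
        have h3 := norm_inner_le_norm (𝕜 := ℂ) v (d (s^[N] x))
        rw [h1, hv, one_mul] at h3
        have h4 := hd (s^[N] x)
        have h5 : ‖d (s^[N] x)‖ ≤ ‖a (s^[N] x)‖ := by
          apply le_of_sq_le_sq _ (norm_nonneg _)
          nlinarith [sq_nonneg ‖c (s^[N] x)‖]
        linarith
      have h3 := ge_of_tendsto' (tendsto_Qp_shift (a x)) h2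
      linarith
    have hwn : 0 < ‖w‖ := norm_pos_iff.2 hw
    have hα : ‖α‖ < 1 := by nlinarith [norm_nonneg α]
    set e : E := ((‖w‖ : ℂ)⁻¹) • w with he
    have hen : ‖e‖ = 1 := by
      rw [he, norm_smul, norm_inv, Complex.norm_real, norm_norm, inv_mul_cancel₀ hwn.ne']
    have hwc : (‖w‖ : ℂ) ≠ 0 := by exact_mod_cast hwn.ne'
    have hwe : w = (‖w‖ : ℂ) • e := by rw [he, smul_smul, mul_inv_cancel₀ hwc, one_smul]
    obtain ⟨M1, κ, hM1, hM1H, hM1n, hκ⟩ := factor_lemma hα hen hwc hwe hnorm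
    have hφ : ∀ x, ⟪v, d x⟫_ℂ = ⟪κ, a x⟫_ℂ := by
      let δ : X →L[ℂ] ℂ := innerSL ℂ v ∘L d - innerSL ℂ κ ∘L a
      have hδ : ∀ x, δ x = ⟪v, d x⟫_ℂ - ⟪κ, a x⟫_ℂ := fun x => rfl
      have h1 : ∀ x, δ x = conj α * δ (s x) := by
        intro x
        rw [hδ, hδ, hrec x, hκ _ (ha x), has]
        ring
      have h2 : ‖δ‖ ≤ ‖α‖ * ‖δ‖ := by
        refine ContinuousLinearMap.opNorm_le_bound _ (by positivity) fun x => ?_
        rw [h1, norm_mul, Complex.norm_conj, mul_assoc]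
        gcongr
        exact (δ.le_opNorm _).trans (by gcongr; exact hs x)
      have h3 : ‖δ‖ = 0 := by nlinarith [norm_nonneg δ]
      intro x
      rw [← sub_eq_zero, ← hδ, norm_eq_zero.1 h3]
      rfl
    have : Fact (Module.finrank ℂ D = r + 1) := ⟨hr⟩
    have hv0 : v ≠ 0 := by
      intro h
      rw [h, norm_zero] at hv
      exact zero_ne_one hv
    obtain ⟨ν, l, M, hν, hl, hlp, hM, hMH, hMc⟩ := ih (ℂ ∙ v)ᗮ (Qp E ∘L M1 ∘L a)
      ((ℂ ∙ v)ᗮ.orthogonalProjectionOnto ∘L d) (Submodule.finrank_orthogonal_span_singleton hv0)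
      (by
        intro y
        obtain ⟨x, hx⟩ := hsurj y
        refine ⟨x, ?_⟩
        rw [ContinuousLinearMap.comp_apply, hx,
          Submodule.orthogonalProjectionOnto_mem_subspace_eq_self])
      (fun x => Qp_mem _)
      (fun x => by
        simp only [ContinuousLinearMap.comp_apply]
        rw [has, Qp_apply_Qp hM1H, hM1.comm_shift,
          Qp_apply_Qp (fun f hf => shift_mem zero_le_one hf)])
      (fun x => by
        simp only [ContinuousLinearMap.comp_apply]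
        have e1 := hM1n _ (ha x)
        have e2 := hd x
        have e3 := Submodule.norm_sq_eq_add_norm_sq_projection (d x) (ℂ ∙ v)
        have e4 : ‖(ℂ ∙ v).orthogonalProjectionOnto (d x)‖ = ‖⟪κ, a x⟫_ℂ‖ := by
          rw [← hφ, Submodule.coe_norm, ← Submodule.starProjection_apply,
            Submodule.starProjection_unit_singleton ℂ hv, norm_smul, hv, mul_one]
        rw [e4] at e3
        linarith)
    refine ⟨ν, l ++ [(α, InnerProductSpace.rankOne ℂ e e)], M ∘L M1, hν, by simp [hl], ?_, ?_,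
      fun f hf => hMH _ (hM1H f hf), fun x => ?_⟩
    · intro p hp
      rcases List.mem_append.1 hp with h | h
      · exact hlp p h
      · rw [List.mem_singleton] at h
        subst h
        exact ⟨hα, e, hen, rfl⟩
    · simp only [potapov_append]
      exact hM.comp hM1
    · rw [hMc x]
      simp only [ContinuousLinearMap.comp_apply]
      rw [Qp_apply_Qp hMH]

end

end Pool.Agent.H209Z.BT
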