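import Mathlib

set_option autoImplicit false
set_option linter.unusedSectionVars false

open MeasureTheory
open scoped ENNReal ComplexConjugate

namespace Pool.Agent.H209Z.BT

noncomputable section

/-- normalised Lebesgue measure on the circle `ℝ / ℤ`; the point `t` stands for
`z = fourier 1 t = exp (2 π i t)` -/
abbrev mu : Measure UnitAddCircle := AddCircle.haarAddCircle


/-- `n × n` complex matrices, as operators on `ℂⁿ` with the operator norm -/
abbrev Mat (E : Type) [NormedAddCommGroup E] [InnerProductSpace ℂ E] := E →L[ℂ] E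

/-- `L²` of `ℂⁿ`-valued functions on the circle -/
abbrev L2 (E : Type) [NormedAddCommGroup E] := Lp E 2 mu

/-- `L^∞` of matrix-valued functions on the circle -/
abbrev Linf (E : Type) [NormedAddCommGroup E] [InnerProductSpace ℂ E] := Lp (Mat E) ∞ mu

variable {E : Type} [NormedAddCommGroup E] [InnerProductSpace ℂ E] [FiniteDimensional ℂ E]
  [CompleteSpace E]

omit [InnerProductSpace ℂ E] [FiniteDimensional ℂ E] [CompleteSpace E] in
theorem integrable_L2 (f : L2 E) : Integrable f mu :=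
  (Lp.memLp f).integrable (by norm_num)

/-- the Hardy space: the `L²` functions whose negative Fourier coefficients vanish -/
def H2 (E : Type) [NormedAddCommGroup E] [InnerProductSpace ℂ E] : Submodule ℂ (L2 E) where
  carrier := {f | ∀ k : ℤ, k < 0 → fourierCoeff (⇑f) k = 0}
  add_mem' := by
    intro f g hf hg k hk
    rw [fourierCoeff_congr_ae (Lp.coeFn_add f g),
      fourierCoeff.add (integrable_L2 f) (integrable_L2 g), Pi.add_apply, hf k hk, hg k hk,
      add_zero]
  zero_mem' := by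
    intro k _
    rw [fourierCoeff_congr_ae (Lp.coeFn_zero _ _ _)]
    simp [fourierCoeff]
  smul_mem' := by
    intro c f hf k hk
    rw [fourierCoeff_congr_ae (Lp.coeFn_smul c f), fourierCoeff.const_smul, hf k hk, smul_zero]

omit [FiniteDimensional ℂ E] in
theorem lpPairing_fourier (k : ℤ) (f : L2 E) :
    (ContinuousLinearMap.lsmul ℂ ℂ : ℂ →L[ℂ] E →L[ℂ] E).lpPairing mu 2 2
      (fourierLp 2 (-k)) f = fourierCoeff (⇑f) k := by
  rw [ContinuousLinearMap.lpPairing_eq_integral, fourierCoeff]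
  refine integral_congr_ae ?_
  filter_upwards [coeFn_fourierLp (T := 1) 2 (-k)] with t ht
  rw [ht]
  rfl

theorem isClosed_H2 (E : Type) [NormedAddCommGroup E] [InnerProductSpace ℂ E] [CompleteSpace E] : IsClosed (H2 E : Set (L2 E)) := by
  have h : (H2 E : Set (L2 E)) = ⋂ k : ℤ, ⋂ _ : k < 0,
      ((ContinuousLinearMap.lsmul ℂ ℂ : ℂ →L[ℂ] E →L[ℂ] E).lpPairing mu 2 2
        (fourierLp 2 (-k))) ⁻¹' {0} := by
    ext f
    simp only [Set.mem_iInter, Set.mem_preimage, Set.mem_singleton_iff, lpPairing_fourier]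
    rfl
  rw [h]
  exact isClosed_iInter fun k => isClosed_iInter fun _ =>
    isClosed_singleton.preimage (ContinuousLinearMap.continuous _)

instance completeSpace_H2 (E : Type) [NormedAddCommGroup E] [InnerProductSpace ℂ E]
    [CompleteSpace E] : CompleteSpace (H2 E) := (isClosed_H2 E).completeSpace_coe

/-- the multiplication operator `f ↦ Φ f` on `L²` -/
def mulOp (Φ : Linf E) : L2 E →L[ℂ] L2 E :=
  (ContinuousLinearMap.id ℂ (Mat E)).holderL mu ∞ 2 2 Φ

/-- the block Toeplitz operator `f ↦ P (Φ f)` on the Hardy space -/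
def toeplitz (Φ : Linf E) : H2 E →L[ℂ] H2 E :=
  (H2 E).orthogonalProjectionOnto ∘L mulOp Φ ∘L (H2 E).subtypeL

/-- the self-commutator `T* T - T T*` -/
def selfCommutator (T : H2 E →L[ℂ] H2 E) : H2 E →L[ℂ] H2 E :=
  ContinuousLinearMap.adjoint T ∘L T - T ∘L ContinuousLinearMap.adjoint T

/-- `F` is in `H^∞`: essentially bounded, with vanishing negative Fourier coefficients -/
def IsHinf (F : UnitAddCircle → Mat E) : Prop :=
  MemLp F ∞ mu ∧ ∀ k : ℤ, k < 0 → fourierCoeff F k = 0

/-- `K` lies in the set `E(Φ)`: `K ∈ H^∞`, `‖K‖_∞ ≤ 1` and `Φ - K Φ* ∈ H^∞` -/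
def MemE (Φ : Linf E) (K : UnitAddCircle → Mat E) : Prop :=
  IsHinf K ∧ eLpNorm K ∞ mu ≤ 1 ∧ IsHinf fun t => Φ t - K t * star (Φ t)

/-- the Blaschke factor `(z - α) / (1 - conj α * z)` -/
def blaschke (α z : ℂ) : ℂ := (z - α) / (1 - conj α * z)

/-- `ν` times the ordered product of the factors `b_α(z) P + (1 - P)` over a list of pairs
`(α, P)` -/
def potapov (ν : Mat E) (l : List (ℂ × Mat E)) (z : ℂ) : Mat E :=
  ν * (l.map fun p => blaschke p.1 z • p.2 + (1 - p.2)).prod

/-- `B` is a finite Blaschke-Potapov product -/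
def IsBlaschkePotapov (B : ℂ → Mat E) : Prop :=
  ∃ (ν : Mat E) (l : List (ℂ × Mat E)), ν ∈ unitary (Mat E) ∧
    (∀ p ∈ l, ‖p.1‖ < 1 ∧ IsStarProjection p.2 ∧ p.2 ≠ 0) ∧ B = potapov ν l

/-- the number of zeros of `det B` in the open unit disc, counted with multiplicity -/
def degDet (B : ℂ → Mat E) : ℕ :=
  ∑ᶠ z ∈ Metric.ball (0 : ℂ) 1, analyticOrderNatAt (fun w => (B w).det) z

end

end Pool.Agent.H209Z.BT
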