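import Pool.Agent.H209Z.BT.Core

set_option autoImplicit false
set_option linter.unusedSectionVars false

open MeasureTheory Filter Topology
open scoped ENNReal ComplexConjugate InnerProductSpace

namespace Pool.Agent.H209Z.BT

noncomputable section

variable {E : Type} [NormedAddCommGroup E] [InnerProductSpace ℂ E] [FiniteDimensional ℂ E]
  [CompleteSpace E]

theorem det_mul' (A B : Mat E) : (A * B).det = A.det * B.det := by
  have h : ((A * B : Mat E) : E →ₗ[ℂ] E) =
    (A : E →ₗ[ℂ] E) * (B : E →ₗ[ℂ] E) := rfl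
  unfold ContinuousLinearMap.det
  rw [h, map_mul]

theorem det_one' : (1 : Mat E).det = 1 := by
  have h : ((1 : Mat E) : E →ₗ[ℂ] E) = 1 := rfl
  unfold ContinuousLinearMap.det
  rw [h, map_one]

theorem det_factor (b : ℂ) {e : E} (he : ‖e‖ = 1) :
    (b • InnerProductSpace.rankOne ℂ e e + (1 - InnerProductSpace.rankOne ℂ e e) : Mat E).det
      = b := by
  have h : ((b • InnerProductSpace.rankOne ℂ e e + (1 - InnerProductSpace.rankOne ℂ e e) :
      Mat E) : E →ₗ[ℂ] E) = LinearMap.transvection ((b - 1) • innerₛₗ ℂ e) e := by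
    refine LinearMap.ext fun v => ?_
    change b • (⟪e, v⟫_ℂ • e) + (v - ⟪e, v⟫_ℂ • e) = v + ((b - 1) * ⟪e, v⟫_ℂ) • e
    module
  unfold ContinuousLinearMap.det
  rw [h, LinearMap.transvection.det]
  change 1 + (b - 1) * ⟪e, e⟫_ℂ = b
  rw [inner_self_eq_norm_sq_to_K, he]
  simp

theorem det_unitary_ne_zero {U : Mat E} (hU : U ∈ unitary (Mat E)) : U.det ≠ 0 := by
  intro h
  have h1 := det_mul' (star U) U
  rw [hU.1, det_one', h, mul_zero] at h1
  exact one_ne_zero h1

theorem det_potapov (ν : Mat E) (l : List (ℂ × Mat E))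
    (hl : ∀ p ∈ l, ∃ e : E, ‖e‖ = 1 ∧ p.2 = InnerProductSpace.rankOne ℂ e e) (z : ℂ) :
    (potapov ν l z).det = ν.det * (l.map fun p => blaschke p.1 z).prod := by
  unfold potapov
  rw [det_mul']
  congr 1
  induction l with
  | nil => simpa using det_one'
  | cons p l ih =>
    obtain ⟨e, he, hp⟩ := hl p List.mem_cons_self
    rw [List.map_cons, List.prod_cons, List.map_cons, List.prod_cons, det_mul',
      ih fun q hq => hl q (List.mem_cons_of_mem _ hq), hp, det_factor _ he]

theorem analyticAt_blaschke {α z : ℂ} (hα : ‖α‖ < 1) (hz : ‖z‖ ≤ 1) :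
    AnalyticAt ℂ (blaschke α) z := by
  unfold blaschke
  exact AnalyticAt.div (f := fun z => z - α) (g := fun z => 1 - conj α * z) (by fun_prop)
    (by fun_prop) (one_sub_ne_zero_of_norm hα hz)

open Classical in
theorem order_blaschke {α z : ℂ} (hα : ‖α‖ < 1) (hz : ‖z‖ ≤ 1) :
    analyticOrderAt (blaschke α) z = ((if α = z then 1 else 0 : ℕ) : ℕ∞) := by
  split_ifs with h
  · subst h
    have h1 : blaschke α = (fun z => z - α) * fun z => (1 - conj α * z)⁻¹ := by
      ext w
      simp [blaschke, div_eq_mul_inv]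
    have h2 : AnalyticAt ℂ (fun z => (1 - conj α * z)⁻¹) α :=
      AnalyticAt.inv (f := fun z => 1 - conj α * z) (by fun_prop) (one_sub_ne_zero_of_norm hα hz)
    rw [h1, analyticOrderAt_mul (by fun_prop) h2, analyticOrderAt_id_sub_const_self,
      h2.analyticOrderAt_eq_zero.2 (inv_ne_zero (one_sub_ne_zero_of_norm hα hz))]
    simp
  · rw [Nat.cast_zero, (analyticAt_blaschke hα hz).analyticOrderAt_eq_zero]
    exact div_ne_zero (sub_ne_zero.2 (Ne.symm h)) (one_sub_ne_zero_of_norm hα hz)

open Classical in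
theorem order_prod {c : ℂ} (hc : c ≠ 0) (L : List ℂ) (hL : ∀ α ∈ L, ‖α‖ < 1) {z : ℂ}
    (hz : ‖z‖ ≤ 1) :
    AnalyticAt ℂ (fun w => c * (L.map fun α => blaschke α w).prod) z ∧
    analyticOrderAt (fun w => c * (L.map fun α => blaschke α w).prod) z = (L.count z : ℕ∞) := by
  induction L with
  | nil =>
    refine ⟨by simpa using analyticAt_const, ?_⟩
    simp only [List.map_nil, List.prod_nil, mul_one, List.count_nil, Nat.cast_zero]
    exact (analyticAt_const (v := c)).analyticOrderAt_eq_zero.2 hc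
  | cons α L ih =>
    obtain ⟨h1, h2⟩ := ih fun β hβ => hL β (List.mem_cons_of_mem _ hβ)
    have hα := hL α List.mem_cons_self
    have h3 : (fun w => c * ((α :: L).map fun α => blaschke α w).prod) =
        (fun w => c * (L.map fun α => blaschke α w).prod) * blaschke α := by
      ext w
      simp only [List.map_cons, List.prod_cons, Pi.mul_apply]
      ring
    rw [h3]
    refine ⟨h1.mul (analyticAt_blaschke hα hz), ?_⟩
    rw [analyticOrderAt_mul h1 (analyticAt_blaschke hα hz), h2, order_blaschke hα hz,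
      List.count_cons]
    simp

open Classical in
theorem finsum_count (L : List ℂ) (hL : ∀ α ∈ L, ‖α‖ < 1) :
    ∑ᶠ z ∈ Metric.ball (0 : ℂ) 1, L.count z = L.length := by
  rw [finsum_mem_eq_sum_of_inter_support_eq (t := L.toFinset)]
  · exact List.sum_toFinset_count_eq_length L
  · ext z
    simp only [Set.mem_inter_iff, mem_ball_zero_iff, Function.mem_support, ne_eq,
      List.count_eq_zero, not_not, List.coe_toFinset, Set.mem_setOf_eq, and_self]
    exact ⟨fun h => h.2, fun h => ⟨hL z h, h⟩⟩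

theorem degDet_potapov {ν : Mat E} (hν : ν ∈ unitary (Mat E)) (l : List (ℂ × Mat E))
    (hl : ∀ p ∈ l, ‖p.1‖ < 1 ∧ ∃ e : E, ‖e‖ = 1 ∧ p.2 = InnerProductSpace.rankOne ℂ e e) :
    degDet (potapov ν l) = l.length := by
  classical
  have hL : ∀ α ∈ l.map Prod.fst, ‖α‖ < 1 := by
    intro α hα
    obtain ⟨p, hp, rfl⟩ := List.mem_map.1 hα
    exact (hl p hp).1
  have h1 : (fun w => (potapov ν l w).det) =
      fun w => ν.det * ((l.map Prod.fst).map fun α => blaschke α w).prod := by
    ext w
    rw [det_potapov ν l (fun p hp => (hl p hp).2), List.map_map]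
    rfl
  unfold degDet
  rw [h1, ← List.length_map Prod.fst, ← finsum_count _ hL]
  refine finsum_mem_congr rfl fun z hz => ?_
  rw [mem_ball_zero_iff] at hz
  unfold analyticOrderNatAt
  rw [(order_prod (det_unitary_ne_zero hν) _ hL hz.le).2]
  simp

theorem potapov_mem_unitary {ν : Mat E} (hν : ν ∈ unitary (Mat E)) (l : List (ℂ × Mat E))
    (hl : ∀ p ∈ l, ‖p.1‖ < 1 ∧ IsStarProjection p.2) {z : ℂ} (hz : ‖z‖ = 1) :
    potapov ν l z ∈ unitary (Mat E) := by
  refine mul_mem hν (list_prod_mem ?_)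
  intro x hx
  obtain ⟨p, hp, rfl⟩ := List.mem_map.1 hx
  exact factor_mem_unitary (conj_mul_blaschke (hl p hp).1 hz) (hl p hp).2

theorem continuous_potapov (ν : Mat E) (l : List (ℂ × Mat E)) (hl : ∀ p ∈ l, ‖p.1‖ < 1) :
    Continuous fun t : UnitAddCircle => potapov ν l (fourier 1 t) := by
  unfold potapov
  refine continuous_const.mul (continuous_list_prod l fun p hp => ?_)
  exact ((continuous_blaschke (hl p hp)).smul continuous_const).add continuous_const

theorem norm_unitary_le {U : Mat E} (hU : U ∈ unitary (Mat E)) : ‖U‖ ≤ 1 :=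
  ContinuousLinearMap.opNorm_le_bound _ zero_le_one fun v => by
    rw [one_mul]
    exact (norm_eq_of_inner (inner_unitary hU v v)).le

end

end Pool.Agent.H209Z.BT
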