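import Pool.Agent.H209Z.BT.Basic

set_option autoImplicit false
set_option linter.unusedSectionVars false

open MeasureTheory Filter Topology
open scoped ENNReal ComplexConjugate InnerProductSpace

namespace Pool.Agent.H209Z.BT

noncomputable section

variable {E : Type} [NormedAddCommGroup E] [InnerProductSpace ℂ E] [FiniteDimensional ℂ E]
  [CompleteSpace E]

theorem norm_fourier_one (t : UnitAddCircle) : ‖fourier 1 t‖ = 1 := by
  rw [fourier_apply, Circle.norm_coe]

theorem sub_ne_zero_of_norm {α z : ℂ} (hα : ‖α‖ < 1) (hz : ‖z‖ = 1) : z - α ≠ 0 := by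
  intro h
  rw [sub_eq_zero] at h
  rw [h] at hz
  linarith

theorem one_sub_ne_zero_of_norm {α z : ℂ} (hα : ‖α‖ < 1) (hz : ‖z‖ ≤ 1) :
    1 - conj α * z ≠ 0 := by
  intro h
  rw [sub_eq_zero] at h
  have h1 : ‖conj α * z‖ < 1 := by
    rw [norm_mul, Complex.norm_conj]
    nlinarith [norm_nonneg α, norm_nonneg z]
  rw [← h, norm_one] at h1
  exact lt_irrefl _ h1

theorem conj_mul_blaschke {α z : ℂ} (hα : ‖α‖ < 1) (hz : ‖z‖ = 1) :
    conj (blaschke α z) * blaschke α z = 1 := by
  have h1 := one_sub_ne_zero_of_norm hα hz.le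
  have h2 : conj z * z = 1 := by
    rw [mul_comm, Complex.mul_conj, Complex.normSq_eq_norm_sq, hz]
    simp
  have h3 : conj (1 - conj α * z) ≠ 0 := by
    rwa [Ne, map_eq_zero]
  unfold blaschke
  rw [map_div₀, div_mul_div_comm, div_eq_one_iff_eq (mul_ne_zero h3 h1)]
  simp only [map_sub, map_mul, map_one, Complex.conj_conj]
  linear_combination (1 - α * conj α) * h2

theorem factor_mem_unitary' {A : Type*} [Ring A] [StarRing A] [Algebra ℂ A] [StarModule ℂ A]
    {b : ℂ} (hb : conj b * b = 1) {P : A} (hP : IsStarProjection P) :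
    b • P + (1 - P) ∈ unitary A := by
  have h1 : P * P = P := hP.isIdempotentElem
  have h2 : star P = P := hP.isSelfAdjoint
  have hb' : b * conj b = 1 := by rw [mul_comm]; exact hb
  constructor
  · rw [star_add, star_smul, star_sub, star_one, h2]
    simp only [add_mul, mul_add, smul_mul_assoc, mul_smul_comm, mul_sub, sub_mul, h1, mul_one,
      one_mul, sub_self, smul_zero, smul_smul, add_zero, sub_zero, smul_add, zero_add]
    rw [show b * star b = 1 from hb']
    simp
  · rw [star_add, star_smul, star_sub, star_one, h2]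
    simp only [add_mul, mul_add, smul_mul_assoc, mul_smul_comm, mul_sub, sub_mul, h1, mul_one,
      one_mul, sub_self, smul_zero, smul_smul, add_zero, sub_zero, smul_add, zero_add]
    rw [show star b * b = 1 from hb]
    simp

theorem factor_mem_unitary {b : ℂ} (hb : conj b * b = 1) {P : Mat E} (hP : IsStarProjection P) :
    b • P + (1 - P) ∈ unitary (Mat E) := factor_mem_unitary' hb hP

theorem inner_unitary {U : Mat E} (hU : U ∈ unitary (Mat E)) (v w : E) :
    ⟪U v, U w⟫_ℂ = ⟪v, w⟫_ℂ := by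
  rw [← ContinuousLinearMap.adjoint_inner_right, ← ContinuousLinearMap.star_eq_adjoint]
  have h : (star U * U) w = w := by rw [hU.1]; rfl
  exact congrArg _ h

theorem continuous_blaschke {α : ℂ} (hα : ‖α‖ < 1) :
    Continuous fun t : UnitAddCircle => blaschke α (fourier 1 t) := by
  unfold blaschke
  refine Continuous.div (by fun_prop) (by fun_prop) fun t => ?_
  exact one_sub_ne_zero_of_norm hα (norm_fourier_one t).le

theorem shift_neg_mem_orth {g : L2 E} (hg : g ∈ (H2 E)ᗮ) : shift E (-1) g ∈ (H2 E)ᗮ :=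
  mem_orth.2 fun k hk => by rw [coef_shift, mem_orth.1 hg _ (by omega)]

theorem mem_orth_of_rec {a : ℂ} (ha : ‖a‖ < 1) {g : L2 E}
    (h : g - a • shift E (-1) g ∈ (H2 E)ᗮ) : g ∈ (H2 E)ᗮ := by
  set Pp := (H2 E).starProjection with hPp
  have h0 : ∀ x ∈ (H2 E)ᗮ, Pp x = 0 := fun x hx =>
    (Submodule.starProjection_apply_eq_zero_iff _).2 hx
  have h1 := h0 _ h
  have h2 := h0 _ (shift_neg_mem_orth ((H2 E).sub_starProjection_mem_orthogonal g))
  rw [map_sub, map_sub, sub_eq_zero] at h2
  rw [map_sub, map_smul, sub_eq_zero, h2] at h1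
  have h3 : ‖Pp g‖ ≤ ‖a‖ * ‖Pp g‖ := by
    conv_lhs => rw [h1, norm_smul]
    gcongr
    exact (Submodule.norm_starProjection_apply_le _ _).trans (norm_shift _ _).le
  have h4 := norm_nonneg (Pp g)
  have h5 : ‖Pp g‖ = 0 := by nlinarith
  exact (Submodule.starProjection_apply_eq_zero_iff _).1 (norm_eq_zero.1 h5)

theorem eq_zero_of_rec {a : ℂ} (ha : ‖a‖ < 1) {d : L2 E} (h : d - a • shift E 1 d = 0) :
    d = 0 := by
  rw [sub_eq_zero] at h
  have h3 : ‖d‖ ≤ ‖a‖ * ‖d‖ := by
    conv_lhs => rw [h, norm_smul, norm_shift]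
  have h4 := norm_nonneg d
  have h5 : ‖d‖ = 0 := by nlinarith
  exact norm_eq_zero.1 h5

theorem factor_lemma {α : ℂ} (hα : ‖α‖ < 1) {e w : E} (he : ‖e‖ = 1) {c : ℂ} (hc : c ≠ 0)
    (hw : w = c • e) (hnorm : ‖α‖ ^ 2 + ‖w‖ ^ 2 = 1) :
    ∃ (M : L2 E →L[ℂ] L2 E) (κ : L2 E),
      IsMul M (fun t => blaschke α (fourier 1 t) • InnerProductSpace.rankOne ℂ e e +
        (1 - InnerProductSpace.rankOne ℂ e e)) ∧
      (∀ f ∈ H2 E, M f ∈ H2 E) ∧
      (∀ g ∈ (H2 E)ᗮ, ‖g‖ ^ 2 = ‖Qp E (M g)‖ ^ 2 + ‖⟪κ, g⟫_ℂ‖ ^ 2) ∧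
      (∀ g ∈ (H2 E)ᗮ, ⟪κ, g⟫_ℂ =
        conj α * ⟪κ, Qp E (shift E 1 g)⟫_ℂ + ⟪w, coef E (-1) g⟫_ℂ) := by
  set P : Mat E := InnerProductSpace.rankOne ℂ e e with hPdef
  have hP : IsStarProjection P := InnerProductSpace.isStarProjection_rankOne_self he
  have hPP : P * P = P := hP.isIdempotentElem
  have hα' : ‖conj α‖ < 1 := by rwa [Complex.norm_conj]
  have hz := fun t : UnitAddCircle => norm_fourier_one t
  have hn1 := fun t : UnitAddCircle => sub_ne_zero_of_norm hα (hz t)
  have hn2 := fun t : UnitAddCircle => one_sub_ne_zero_of_norm hα (hz t).le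
  obtain ⟨M, hM⟩ := exists_isMul (E := E)
    (F := fun t => blaschke α (fourier 1 t) • P + (1 - P))
    (((continuous_blaschke hα).smul continuous_const).add continuous_const)
  obtain ⟨R, hR⟩ := exists_isMul (E := E)
    (F := fun t => (fourier 1 t - α)⁻¹ • (1 : Mat E))
    ((Continuous.inv₀ (by fun_prop) hn1).smul continuous_const)
  obtain ⟨R', hR'⟩ := exists_isMul (E := E)
    (F := fun t => (1 - conj α * fourier 1 t)⁻¹ • (1 : Mat E))
    ((Continuous.inv₀ (by fun_prop) hn2).smul continuous_const)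
  obtain ⟨Pc, hPc⟩ := exists_isMul (E := E) (F := fun _ => P) continuous_const
  have hS := isMul_shift (E := E) 1
  have hPc' : IsMul (1 - Pc) fun _ => 1 - P := isMul_one.sub hPc
  have i1 : shift E 1 ∘L R = α • R + 1 := by
    refine (hS.comp hR).ext ((hR.smul α).add isMul_one) fun t => ?_
    have h1 : fourier 1 t * (fourier 1 t - α)⁻¹ = α * (fourier 1 t - α)⁻¹ + 1 := by
      have := hn1 t
      field_simp
      ring
    rw [smul_mul_smul_comm, mul_one, h1]
    module
  have i2 : R' - conj α • (shift E 1 ∘L R') = 1 := by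
    refine (hR'.sub ((hS.comp hR').smul _)).ext isMul_one fun t => ?_
    have h1 : (1 - conj α * fourier 1 t)⁻¹ =
        1 + conj α * (fourier 1 t * (1 - conj α * fourier 1 t)⁻¹) := by
      have h2 := mul_inv_cancel₀ (hn2 t)
      linear_combination h2
    rw [smul_mul_smul_comm, mul_one]
    nth_rewrite 1 [h1]
    module
  have i3 : M ∘L (R ∘L Pc) = R' ∘L Pc := by
    refine (hM.comp (hR.comp hPc)).ext (hR'.comp hPc) fun t => ?_
    simp only [smul_mul_assoc, one_mul, mul_smul_comm, add_mul, sub_mul, hPP, sub_self, add_zero,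
      smul_smul]
    congr 1
    unfold blaschke
    have := hn1 t
    have := hn2 t
    field_simp
  have i4 : M - conj α • (shift E 1 ∘L M) = (shift E 1 ∘L Pc - α • Pc) +
      ((1 - Pc) - conj α • (shift E 1 ∘L (1 - Pc))) := by
    refine (hM.sub ((hS.comp hM).smul _)).ext
      (((hS.comp hPc).sub (hPc.smul _)).add (hPc'.sub ((hS.comp hPc').smul _))) fun t => ?_
    have h1 : blaschke α (fourier 1 t) * (1 - conj α * fourier 1 t) = fourier 1 t - α := by
      unfold blaschke
      exact div_mul_cancel₀ _ (hn2 t)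
    simp only [smul_mul_assoc, one_mul]
    have h2 : (fourier 1 t : ℂ) • P - α • P =
        (blaschke α (fourier 1 t) * (1 - conj α * fourier 1 t)) • P := by
      rw [h1]
      module
    rw [h2]
    module
  have i5 : (1 - Pc) ∘L M = 1 - Pc := by
    refine (hPc'.comp hM).ext hPc' fun t => ?_
    simp only [mul_add, mul_smul_comm, sub_mul, mul_sub, hPP, one_mul, mul_one, sub_self,
      smul_zero, sub_zero, zero_add]
  have hPw : P w = w := by
    rw [hw, map_smul, hPdef, InnerProductSpace.rankOne_apply, inner_self_eq_norm_sq_to_K, he]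
    simp
  have hPcw : Pc (cst E w) = cst E w := by
    rw [← sub_eq_zero]
    apply eq_zero_of_coef
    intro k
    rw [map_sub, hPc.coef_const, coef_cst]
    split_ifs <;> simp [hPw]
  have hMin : ∀ f g, ⟪M f, M g⟫_ℂ = ⟪f, g⟫_ℂ :=
    hM.inner_map fun t => inner_unitary (factor_mem_unitary (conj_mul_blaschke hα (hz t)) hP)
  set κ := R (cst E w) with hκ
  set k := R' (cst E w) with hk
  have j1 : shift E 1 κ = α • κ + cst E w := congrArg (fun T : L2 E →L[ℂ] L2 E => T (cst E w)) i1
  have j2 : k - conj α • shift E 1 k = cst E w :=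
    congrArg (fun T : L2 E →L[ℂ] L2 E => T (cst E w)) i2
  have j3 : M κ = k := by
    have := congrArg (fun T : L2 E →L[ℂ] L2 E => T (cst E w)) i3
    simpa only [ContinuousLinearMap.comp_apply, hPcw] using this
  have hκo : κ ∈ (H2 E)ᗮ := by
    apply mem_orth_of_rec hα
    have h1 : κ - α • shift E (-1) κ = shift E (-1) (cst E w) := by
      have h2 := congrArg (shift E (-1)) j1
      rw [shift_shift, neg_add_cancel, shift_zero, map_add, map_smul] at h2
      rw [sub_eq_iff_eq_add']
      exact h2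
    rw [h1]
    refine mem_orth.2 fun j hj => ?_
    rw [coef_shift, coef_cst, if_neg (by omega)]
  have hkH : k ∈ H2 E := mem_of_rec hα' (by rw [j2]; exact cst_mem w)
  have hκn : ‖κ‖ = 1 := by
    have h1 : ⟪α • κ, cst E w⟫_ℂ = 0 := by
      rw [inner_smul_left, (Submodule.mem_orthogonal' _ _).1 hκo _ (cst_mem w), mul_zero]
    have h2 := norm_add_sq_eq_norm_sq_add_norm_sq_of_inner_eq_zero _ _ h1
    rw [← j1, norm_shift, norm_smul, norm_cst] at h2
    have h3 : (1 - ‖α‖ ^ 2) * (‖κ‖ ^ 2 - 1) = 0 := by nlinarith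
    have h4 : 0 < 1 - ‖α‖ ^ 2 := by nlinarith [norm_nonneg α]
    have h5 : ‖κ‖ ^ 2 = 1 := by
      rcases mul_eq_zero.1 h3 with h | h
      · linarith
      · linarith
    have h6 := norm_nonneg κ
    nlinarith
  have hkn : ‖k‖ = 1 := by rw [← j3, norm_eq_of_inner (hMin κ κ), hκn]
  have j4 : ∀ f, M f - conj α • shift E 1 (M f) = (shift E 1 (Pc f) - α • Pc f) +
      ((1 - Pc) f - conj α • shift E 1 ((1 - Pc) f)) := fun f =>
    congrArg (fun T : L2 E →L[ℂ] L2 E => T f) i4
  refine ⟨M, κ, hM, fun f hf => ?_, fun g hg => ?_, fun g hg => ?_⟩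
  · apply mem_of_rec hα'
    rw [j4]
    have h1 : Pc f ∈ H2 E := mem_H2.2 fun j hj => by
      rw [hPc.coef_const, mem_H2.1 hf j hj, map_zero]
    have h2 : (1 - Pc) f ∈ H2 E := mem_H2.2 fun j hj => by
      rw [hPc'.coef_const, mem_H2.1 hf j hj, map_zero]
    exact add_mem (sub_mem (shift_mem zero_le_one h1) (Submodule.smul_mem _ _ h1))
      (sub_mem h2 (Submodule.smul_mem _ _ (shift_mem zero_le_one h2)))
  · set y := M g with hy
    have h0 : (1 - P) (coef E 0 y) = 0 := by
      have h1 : (1 - Pc) y = (1 - Pc) g := congrArg (fun T : L2 E →L[ℂ] L2 E => T g) i5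
      rw [← hPc'.coef_const, h1, hPc'.coef_const, mem_orth.1 hg 0 le_rfl, map_zero]
    obtain ⟨l, hl⟩ : ∃ l : ℂ, coef E 0 y = l • w := by
      refine ⟨⟪e, coef E 0 y⟫_ℂ * c⁻¹, ?_⟩
      rw [hw, smul_smul, mul_assoc, inv_mul_cancel₀ hc, mul_one]
      have h1 : coef E 0 y - P (coef E 0 y) = 0 := h0
      rw [sub_eq_zero] at h1
      exact h1
    have hp : y - Qp E y = l • k := by
      rw [← sub_eq_zero]
      apply eq_zero_of_rec hα'
      have hd : y - Qp E y - l • k ∈ H2 E := sub_mem (sub_Qp_mem y) (Submodule.smul_mem _ _ hkH)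
      apply eq_zero_of_coef
      intro j
      rcases lt_trichotomy j 0 with hj | hj | hj
      · exact mem_H2.1 (sub_mem hd (Submodule.smul_mem _ _ (shift_mem zero_le_one hd))) j hj
      · subst hj
        have h1 := congrArg (coef E 0) j2
        rw [map_sub, map_smul, coef_shift, mem_H2.1 hkH (0 - 1) (by omega), smul_zero, sub_zero,
          coef_cst, if_pos rfl] at h1
        rw [map_sub, map_smul, coef_shift, mem_H2.1 hd (0 - 1) (by omega), smul_zero, sub_zero,
          map_sub, map_sub, map_smul, mem_orth.1 (Qp_mem y) 0 le_rfl, h1, hl, sub_zero, sub_self]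
      · have h1 := congrArg (coef E j) j2
        rw [map_sub, map_smul, coef_shift, coef_cst, if_neg hj.ne', sub_eq_zero] at h1
        have h2 := congrArg (coef E j) (j4 g)
        simp only [map_add, map_sub, map_smul, coef_shift, hPc.coef_const, hPc'.coef_const,
          mem_orth.1 hg j hj.le, mem_orth.1 hg (j - 1) (by omega), map_zero, smul_zero, sub_zero,
          add_zero] at h2
        rw [sub_eq_zero, ← hy] at h2
        simp only [map_sub, map_smul, coef_shift, mem_orth.1 (Qp_mem y) j hj.le,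
          mem_orth.1 (Qp_mem y) (j - 1) (by omega), sub_zero]
        rw [h1, h2, smul_sub, smul_comm, sub_self]
    have h3 : ⟪κ, g⟫_ℂ = l := by
      rw [← hMin, j3, ← hy, ← sub_add_cancel y (Qp E y), inner_add_right, hp,
        (Submodule.mem_orthogonal _ _).1 (Qp_mem y) _ hkH, inner_smul_right,
        inner_self_eq_norm_sq_to_K, hkn]
      simp
    rw [h3, ← norm_eq_of_inner (hMin g g), ← hy, norm_sq_split y, hp, norm_smul, hkn]
    ring
  · rw [← inner_shift 1 κ g, j1, inner_add_left, inner_smul_left, inner_cst, coef_shift]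
    congr 2
    rw [← sub_add_cancel (shift E 1 g) (Qp E (shift E 1 g)), inner_add_right,
      (Submodule.mem_orthogonal' _ _).1 hκo _ (sub_Qp_mem _), zero_add, sub_add_cancel]

end

end Pool.Agent.H209Z.BT
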