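import Pool.Agent.H209Z.BT.Deg

set_option autoImplicit false
set_option linter.unusedSectionVars false

open MeasureTheory Filter Topology
open scoped ENNReal ComplexConjugate InnerProductSpace

namespace Pool.Agent.H209Z.BT

noncomputable section

variable {E : Type} [NormedAddCommGroup E] [InnerProductSpace ℂ E] [FiniteDimensional ℂ E]
  [CompleteSpace E]

theorem null_vector {G : Type*} [NormedAddCommGroup G] [InnerProductSpace ℂ G]
    (S : Submodule ℂ G) (N : G →L[ℂ] G) (hsym : ∀ x y, ⟪N x, y⟫_ℂ = ⟪x, N y⟫_ℂ)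
    (hpos : ∀ f ∈ S, 0 ≤ (⟪f, N f⟫_ℂ).re) {e : G} (he : e ∈ S) (h0 : (⟪e, N e⟫_ℂ).re = 0)
    {f : G} (hf : f ∈ S) : ⟪e, N f⟫_ℂ = 0 := by
  set u := ⟪e, N f⟫_ℂ with hu
  set q := (⟪f, N f⟫_ℂ).re with hq
  have hq0 : 0 ≤ q := hpos f hf
  have key : ∀ t : ℝ, 0 ≤ -2 * t * Complex.normSq u + t ^ 2 * Complex.normSq u * q := by
    intro t
    have h1 := hpos (e + (-(t : ℂ) * conj u) • f) (add_mem he (S.smul_mem _ hf))
    have h2 : ⟪f, N e⟫_ℂ = conj u := by rw [hu, inner_conj_symm, hsym]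
    rw [map_add, map_smul, inner_add_left, inner_add_right, inner_add_right, inner_smul_right,
      inner_smul_left, inner_smul_left, inner_smul_right, h2, ← hu] at h1
    simp only [Complex.add_re, h0, Complex.mul_re, Complex.mul_im, Complex.neg_re,
      Complex.neg_im, Complex.ofReal_re, Complex.ofReal_im, Complex.conj_re, Complex.conj_im,
      ← hq] at h1
    rw [Complex.normSq_apply]
    nlinarith [h1]
  have h3 := key (1 / (q + 1))
  have h4 : 0 < q + 1 := by linarith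
  have h5 : -2 * (1 / (q + 1)) * Complex.normSq u + (1 / (q + 1)) ^ 2 * Complex.normSq u * q =
      -(Complex.normSq u * ((q + 2) / (q + 1) ^ 2)) := by
    field_simp
    ring
  rw [h5] at h3
  have h6 : 0 < (q + 2) / (q + 1) ^ 2 := by positivity
  have h7 := Complex.normSq_nonneg u
  have h8 : Complex.normSq u = 0 := by nlinarith
  exact Complex.normSq_eq_zero.1 h8

theorem re_inner_self {G : Type*} [NormedAddCommGroup G] [InnerProductSpace ℂ G] (x : G) :
    (⟪x, x⟫_ℂ).re = ‖x‖ ^ 2 := inner_self_eq_norm_sq (𝕜 := ℂ) x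

theorem normal_of_nonneg {A B : L2 E →L[ℂ] L2 E} {F : UnitAddCircle → Mat E} (hA : IsMul A F)
    (hB : IsMul B fun t => star (F t)) (h : ∀ f ∈ H2 E, ‖B f‖ ^ 2 ≤ ‖A f‖ ^ 2) :
    ∀ f ∈ H2 E, ‖B f‖ ^ 2 = ‖A f‖ ^ 2 := by
  have hAB : ∀ f g, ⟪A f, g⟫_ℂ = ⟪f, B g⟫_ℂ := hA.inner hB (ae_of_all _ fun _ => rfl)
  have hBA : ∀ f g, ⟪B f, g⟫_ℂ = ⟪f, A g⟫_ℂ :=
    hB.inner hA (ae_of_all _ fun _ => (star_star _).symm)
  set N := B ∘L A - A ∘L B with hN
  have hNm : IsMul N fun t => star (F t) * F t - F t * star (F t) :=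
    (hB.comp hA).sub (hA.comp hB)
  have hNa : ∀ f, N f = B (A f) - A (B f) := fun f => rfl
  have hsym : ∀ x y, ⟪N x, y⟫_ℂ = ⟪x, N y⟫_ℂ := by
    intro x y
    rw [hNa, hNa, inner_sub_left, inner_sub_right, hBA, hAB, hAB, hBA]
  have hq : ∀ f, (⟪f, N f⟫_ℂ).re = ‖A f‖ ^ 2 - ‖B f‖ ^ 2 := by
    intro f
    rw [hNa, inner_sub_right, ← hAB f (A f), ← hBA f (B f), Complex.sub_re, re_inner_self,
      re_inner_self]
  have hpos : ∀ f ∈ H2 E, 0 ≤ (⟪f, N f⟫_ℂ).re := fun f hf => by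
    rw [hq]
    linarith [h f hf]
  let b := stdOrthonormalBasis ℂ E
  have hsum : ∑ i, ⟪cst E (b i), N (cst E (b i))⟫_ℂ = 0 := by
    simp only [L2.inner_def]
    rw [← integral_finsetSum _ fun i _ => L2.integrable_inner _ _]
    refine integral_eq_zero_of_ae ?_
    filter_upwards [ae_all_iff.2 fun i => hNm (cst E (b i)),
      ae_all_iff.2 fun i => coeFn_cst (b i)] with t h1 h2
    simp only [h1, h2, Pi.zero_apply]
    have h3 := LinearMap.trace_eq_sum_inner
      ((star (F t) * F t - F t * star (F t) : Mat E) : E →ₗ[ℂ] E) b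
    have h4 : ((star (F t) * F t - F t * star (F t) : Mat E) : E →ₗ[ℂ] E) =
        ((star (F t) : Mat E) : E →ₗ[ℂ] E) * (F t : E →ₗ[ℂ] E) -
          (F t : E →ₗ[ℂ] E) * ((star (F t) : Mat E) : E →ₗ[ℂ] E) := rfl
    rw [h4, map_sub, LinearMap.trace_mul_comm, sub_self] at h3
    exact h3.symm
  have hzero : ∀ i, (⟪cst E (b i), N (cst E (b i))⟫_ℂ).re = 0 := by
    have h1 := congrArg Complex.re hsum
    rw [Complex.re_sum, Complex.zero_re,
      Finset.sum_eq_zero_iff_of_nonneg fun i _ => hpos _ (cst_mem _)] at h1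
    exact fun i => h1 i (Finset.mem_univ i)
  intro f hf
  have h1 : N f ∈ (H2 E)ᗮ := by
    refine mem_orth.2 fun k hk => ?_
    apply b.repr.injective
    ext i
    rw [b.repr_apply_apply, ← inner_shift_cst, map_zero]
    refine null_vector (H2 E) N hsym hpos (shift_cst_mem hk _) ?_ hf
    rw [hNm.comm_shift, inner_shift, hzero]
  have h2 := hq f
  rw [(Submodule.mem_orthogonal _ _).1 h1 f hf, Complex.zero_re] at h2
  linarith

theorem exists_factor {G : Type} [NormedAddCommGroup G] [InnerProductSpace ℂ G] [CompleteSpace G]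
    (C : G →L[ℂ] G) (hC : C.IsPositive) [FiniteDimensional ℂ C.range] :
    ∃ (D : Type) (_ : NormedAddCommGroup D) (_ : InnerProductSpace ℂ D)
      (_ : FiniteDimensional ℂ D) (d : G →L[ℂ] D),
      Module.finrank ℂ D = Module.finrank ℂ C.range ∧ Function.Surjective d ∧
      ∀ x, ‖d x‖ ^ 2 = (⟪C x, x⟫_ℂ).re := by
  obtain ⟨S, hS⟩ := CStarAlgebra.nonneg_iff_eq_star_mul_self.1
    ((ContinuousLinearMap.nonneg_iff_isPositive C).2 hC)
  have h1 : ∀ x, ‖S x‖ ^ 2 = (⟪C x, x⟫_ℂ).re := by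
    intro x
    have h2 : C x = ContinuousLinearMap.adjoint S (S x) := by rw [hS]; rfl
    rw [h2, ContinuousLinearMap.adjoint_inner_left, re_inner_self]
  have hk : S.ker = C.ker := by
    ext x
    simp only [LinearMap.mem_ker, ContinuousLinearMap.coe_coe]
    constructor
    · intro hx
      have h2 : C x = ContinuousLinearMap.adjoint S (S x) := by rw [hS]; rfl
      rw [h2, hx, map_zero]
    · intro hx
      have h2 := h1 x
      rw [hx, inner_zero_left, Complex.zero_re] at h2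
      simpa using h2
  let e : S.range ≃ₗ[ℂ] C.range := (S : G →ₗ[ℂ] G).quotKerEquivRange.symm ≪≫ₗ
    Submodule.quotEquivOfEq _ _ hk ≪≫ₗ (C : G →ₗ[ℂ] G).quotKerEquivRange
  refine ⟨S.range, inferInstance, inferInstance, e.symm.finiteDimensional, S.rangeRestrict,
    e.finrank_eq, ?_, fun x => ?_⟩
  · rintro ⟨_, x, rfl⟩
    exact ⟨x, rfl⟩
  · rw [← h1]
    rfl

theorem main (Φ : Linf E) (hhyp : (selfCommutator (toeplitz Φ)).IsPositive)
    (hfin : FiniteDimensional ℂ (selfCommutator (toeplitz Φ)).range) :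
    ∃ B : ℂ → Mat E, IsBlaschkePotapov B ∧ MemE Φ (fun t => B (fourier 1 t)) ∧
      Module.finrank ℂ (selfCommutator (toeplitz Φ)).range = degDet B := by
  have hΦ : MemLp (Φ : UnitAddCircle → Mat E) ∞ mu := Lp.memLp Φ
  have hΦs : MemLp (fun t => star (Φ t) : UnitAddCircle → Mat E) ∞ mu := hΦ.star
  set A := mulOp Φ with hAdef
  have hA : IsMul A Φ := isMul_mulOp Φ
  obtain ⟨B, hB⟩ := exists_isMul_of_memLp hΦs
  have hAB : ∀ f g, ⟪A f, g⟫_ℂ = ⟪f, B g⟫_ℂ := hA.inner hB (ae_of_all _ fun _ => rfl)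
  set T := toeplitz Φ with hT
  have hP : ∀ g : L2 E, (((H2 E).orthogonalProjectionOnto g : H2 E) : L2 E) = g - Qp E g := by
    intro g
    rw [Submodule.starProjection_orthogonal_val, sub_sub_cancel]
    rfl
  have hTa : ∀ f : H2 E, (T f : L2 E) = A f - Qp E (A f) := fun f => hP _
  have hTs : ∀ f : H2 E, (ContinuousLinearMap.adjoint T f : L2 E) = B f - Qp E (B f) := by
    intro f
    have h1 : (H2 E).orthogonalProjectionOnto ∘L B ∘L (H2 E).subtypeL =
        ContinuousLinearMap.adjoint T := by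
      rw [ContinuousLinearMap.eq_adjoint_iff]
      intro x y
      have h2 : ⟪(H2 E).orthogonalProjectionOnto (B x), y⟫_ℂ = ⟪B x, y⟫_ℂ :=
        Submodule.inner_orthogonalProjectionOnto_eq_of_mem_right y _
      have h3 : ⟪x, (H2 E).orthogonalProjectionOnto (A y)⟫_ℂ = ⟪(x : L2 E), A y⟫_ℂ :=
        Submodule.inner_orthogonalProjectionOnto_eq_of_mem_left x _
      have h4 : ⟪B x, (y : L2 E)⟫_ℂ = ⟪(x : L2 E), A y⟫_ℂ := by
        rw [← inner_conj_symm, ← hAB, inner_conj_symm]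
      exact h2.trans (h4.trans h3.symm)
    rw [← h1]
    exact hP _
  have hC : ∀ f : H2 E, (⟪selfCommutator T f, f⟫_ℂ).re =
      (‖A f‖ ^ 2 - ‖Qp E (A f)‖ ^ 2) - (‖B f‖ ^ 2 - ‖Qp E (B f)‖ ^ 2) := by
    intro f
    have h1 : selfCommutator T f = ContinuousLinearMap.adjoint T (T f) -
        T (ContinuousLinearMap.adjoint T f) := rfl
    rw [h1, inner_sub_left, ContinuousLinearMap.adjoint_inner_left,
      ← ContinuousLinearMap.adjoint_inner_right T (ContinuousLinearMap.adjoint T f) f,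
      Complex.sub_re, Submodule.coe_inner, Submodule.coe_inner, re_inner_self, re_inner_self,
      hTa, hTs, norm_sq_split (A f), norm_sq_split (B f)]
    ring
  have hnormal : ∀ f ∈ H2 E, ‖B f‖ ^ 2 = ‖A f‖ ^ 2 := by
    refine normal_of_nonneg hA hB fun f hf => ?_
    have h1 : ∀ N : ℕ, ‖Qp E (shift E N (A f))‖ ^ 2 - ‖Qp E (shift E N (B f))‖ ^ 2 ≤
        ‖A f‖ ^ 2 - ‖B f‖ ^ 2 := by
      intro N
      have h2 := hC ⟨shift E N f, shift_mem (Int.natCast_nonneg N) hf⟩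
      have h3 : 0 ≤ (⟪selfCommutator T ⟨shift E N f, shift_mem (Int.natCast_nonneg N) hf⟩,
          (⟨shift E N f, shift_mem (Int.natCast_nonneg N) hf⟩ : H2 E)⟫_ℂ).re :=
        hhyp.re_inner_nonneg_left _
      rw [h2] at h3
      simp only [hA.comm_shift, hB.comm_shift, norm_shift] at h3
      linarith
    have h2 := ((tendsto_Qp_shift (A f)).pow 2).sub ((tendsto_Qp_shift (B f)).pow 2)
    have h3 := le_of_tendsto' h2 h1
    norm_num at h3
    linarith
  obtain ⟨D, _, _, hD, d, hrank, hsurj, hd⟩ := exists_factor (selfCommutator T) hhyp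
  let s : H2 E →L[ℂ] H2 E := (shift E 1 ∘L (H2 E).subtypeL).codRestrict (H2 E)
    fun f => shift_mem zero_le_one f.2
  have hs : ∀ f : H2 E, (s f : L2 E) = shift E 1 f := fun f => rfl
  have hsh := fun (f : L2 E) (hf : f ∈ H2 E) => shift_mem zero_le_one hf
  obtain ⟨ν, l, M, hν, hl, hlp, hM, hMH, hMc⟩ := core s
    (fun f => by rw [Submodule.coe_norm, hs, norm_shift, Submodule.coe_norm])
    (Qp E ∘L A ∘L (H2 E).subtypeL) (fun _ => Qp_mem _)
    (fun f => by
      change Qp E (A (s f)) = Qp E (shift E 1 (Qp E (A f)))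
      rw [hs, hA.comm_shift, Qp_apply_Qp hsh])
    _ D (Qp E ∘L B ∘L (H2 E).subtypeL) d hrank hsurj (fun _ => Qp_mem _)
    (fun f => by
      change Qp E (B (s f)) = Qp E (shift E 1 (Qp E (B f)))
      rw [hs, hB.comm_shift, Qp_apply_Qp hsh])
    (fun f => by
      change ‖Qp E (B f)‖ ^ 2 = ‖Qp E (A f)‖ ^ 2 + _
      rw [hd, hC, hnormal f f.2]
      ring)
  have hproj : ∀ p ∈ l, ‖p.1‖ < 1 ∧ IsStarProjection p.2 ∧ p.2 ≠ 0 := by
    intro p hp
    obtain ⟨h1, e, he, h2⟩ := hlp p hp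
    refine ⟨h1, h2 ▸ InnerProductSpace.isStarProjection_rankOne_self he, fun h3 => ?_⟩
    have h4 := congrArg norm h2
    rw [h3, norm_zero, InnerProductSpace.norm_rankOne, he] at h4
    norm_num at h4
  have hcont := continuous_potapov ν l fun p hp => (hlp p hp).1
  have hK := memLp_of_continuous hcont
  refine ⟨potapov ν l, ⟨ν, l, hν, hproj, rfl⟩, ⟨hM.isHinf hK hMH, ?_, ?_⟩, ?_⟩
  · rw [eLpNorm_exponent_top, ← ENNReal.ofReal_one]
    refine eLpNormEssSup_le_of_ae_bound (ae_of_all _ fun t => norm_unitary_le ?_)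
    exact potapov_mem_unitary hν l (fun p hp => ⟨(hproj p hp).1, (hproj p hp).2.1⟩)
      (norm_fourier_one t)
  · refine (hA.sub (hM.comp hB)).isHinf (hΦ.sub (hΦs.mul' hK)) fun f hf => ?_
    apply mem_of_Qp
    have h1 : Qp E (A f) = Qp E (M (Qp E (B f))) := hMc ⟨f, hf⟩
    rw [Qp_apply_Qp hMH] at h1
    change Qp E (A f - M (B f)) = 0
    rw [map_sub, h1, sub_self]
  · rw [degDet_potapov hν l hlp, hl]

end

end Pool.Agent.H209Z.BT
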